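import Pool.Agent.Run7.h108.GL.Eig2
import Pool.Agent.Run7.h47.Eig4

/-!
# Project HD, piece LOC, part 1: large energies, one direction
-/

set_option autoImplicit false
set_option linter.unusedSectionVars false

open scoped BigOperators Matrix Topology
open MeasureTheory ProbabilityTheory

namespace Run7.h376.HD

open Pool.Agent.Run7.h47 hiding Hyp good mm mf ze V1 V2 ff Sw_mean Sw_int Hp_mean
open Pool.Agent.W788.MFP.Four Pool.Agent.W788.BK
open Run7.h108.GL (Law Γ ff)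

section rows

variable {d L : ℕ} [NeZero L]

/-- the neighbours of the origin -/
def nb (d L : ℕ) (q : Fin d × Bool) : T d L := if q.2 then Pi.single q.1 1 else -Pi.single q.1 1

theorem nb_inj (hL : 3 ≤ L) : Function.Injective (nb d L) := by
  haveI : Fact (1 < L) := ⟨by omega⟩
  have h2 : (1 : ZMod L) ≠ -1 := by
    intro h
    have h3 : ((2 : ℕ) : ZMod L) = 0 := by
      push_cast
      linear_combination h
    rw [ZMod.natCast_eq_zero_iff] at h3
    have := Nat.le_of_dvd (by norm_num) h3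
    omega
  have hne : ∀ q : Fin d × Bool, nb d L q q.1 ≠ 0 := by
    intro q
    unfold nb
    split_ifs
    · rw [Pi.single_eq_same]
      exact one_ne_zero
    · rw [Pi.neg_apply, Pi.single_eq_same]
      exact neg_ne_zero.2 one_ne_zero
  have hz : ∀ (q : Fin d × Bool) (i : Fin d), i ≠ q.1 → nb d L q i = 0 := by
    intro q i hi
    unfold nb
    split_ifs
    · rw [Pi.single_eq_of_ne hi]
    · rw [Pi.neg_apply, Pi.single_eq_of_ne hi, neg_zero]
  intro q q' h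
  have hi : q.1 = q'.1 := by
    by_contra hcon
    have := congrFun h q.1
    rw [hz q' q.1 hcon] at this
    exact hne q this
  obtain ⟨i, b⟩ := q
  obtain ⟨i', b'⟩ := q'
  simp only at hi
  subst hi
  have h3 := congrFun h i
  unfold nb at h3
  cases b <;> cases b' <;> simp at h3 ⊢
  · exact h2 h3.symm
  · exact h2 h3

/-- the number of ways to be a neighbour -/
noncomputable def cn (x y : T d L) : ℝ := ∑ q : Fin d × Bool, if y = x + nb d L q then (1 : ℝ) else 0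

theorem cn_le (hL : 3 ≤ L) (x y : T d L) : cn x y ^ 2 ≤ cn x y := by
  have h0 : 0 ≤ cn x y := by
    unfold cn
    exact Finset.sum_nonneg fun _ _ => by split_ifs <;> norm_num
  have h1 : cn x y ≤ 1 := by
    unfold cn
    rw [Finset.sum_boole]
    have h2 : (Finset.univ.filter fun q : Fin d × Bool => y = x + nb d L q).card ≤ 1 := by
      rw [Finset.card_le_one]
      intro a ha b hb
      rw [Finset.mem_filter] at ha hb
      apply nb_inj hL
      exact add_left_cancel (ha.2.symm.trans hb.2)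
    exact_mod_cast h2
  nlinarith

theorem cn_sum (x : T d L) : ∑ y, cn x y = 2 * d := by
  unfold cn
  rw [Finset.sum_comm]
  have h1 : ∀ q : Fin d × Bool, ∑ y : T d L, (if y = x + nb d L q then (1 : ℝ) else 0) = 1 := by
    intro q
    rw [Finset.sum_ite_eq' Finset.univ (x + nb d L q), if_pos (Finset.mem_univ _)]
  rw [Finset.sum_congr rfl fun q _ => h1 q, Finset.sum_const, Finset.card_univ, Fintype.card_prod,
    Fintype.card_fin, Fintype.card_bool]
  simp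
  ring

/-- the row of the Hamiltonian -/
noncomputable def row (σ : ℝ) (V : T d L → ℝ) (x y : T d L) : ℂ :=
  ((cn x y : ℝ) : ℂ) + (if y = x then ((σ * V x : ℝ) : ℂ) else 0)

theorem row_eig {σ lam : ℝ} {V : T d L → ℝ} {u : T d L → ℂ} (h : IsEig σ lam V u) (x : T d L) :
    ∑ y, row σ V x y * u y = lam * u x := by
  rw [← h x]
  unfold row
  simp only [add_mul, Finset.sum_add_distrib]
  congr 1
  · unfold cn
    push_cast
    simp only [Finset.sum_mul]
    rw [Finset.sum_comm]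
    have h1 : ∀ q : Fin d × Bool, ∑ y : T d L, ((if y = x + nb d L q then (1 : ℝ) else 0 : ℝ) : ℂ) * u y =
        u (x + nb d L q) := by
      intro q
      rw [Finset.sum_eq_single (x + nb d L q)]
      · simp
      · intro y _ hy
        rw [if_neg hy]
        simp
      · intro h'
        exact absurd (Finset.mem_univ _) h'
    rw [Finset.sum_congr rfl fun q _ => h1 q, Fintype.sum_prod_type, ← Finset.sum_add_distrib]
    refine Finset.sum_congr rfl fun i _ => ?_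
    rw [Fintype.sum_bool]
    unfold nb
    simp [sub_eq_add_neg]
  · rw [Finset.sum_eq_single x]
    · simp
    · intro y _ hy
      rw [if_neg hy, zero_mul]
    · intro h'
      exact absurd (Finset.mem_univ _) h'

theorem row_bd (hL : 3 ≤ L) {σ b : ℝ} {V : T d L → ℝ} (hV : ∀ x, |V x| ≤ b) (x : T d L) :
    ∑ y, ‖row σ V x y‖ ^ 2 ≤ 4 * d + 2 * σ ^ 2 * b ^ 2 := by
  have h1 : ∀ y, ‖row σ V x y‖ ^ 2 ≤ 2 * cn x y + (if y = x then 2 * (σ ^ 2 * b ^ 2) else 0) := by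
    intro y
    have h2 := cn_le (d := d) hL x y
    unfold row
    by_cases hy : y = x
    · rw [if_pos hy, if_pos hy, ← Complex.ofReal_add, Complex.norm_real, Real.norm_eq_abs, sq_abs]
      have h3 : (V x) ^ 2 ≤ b ^ 2 := by
        rw [← sq_abs]
        exact pow_le_pow_left₀ (abs_nonneg _) (hV x) 2
      have h4 : (cn x y + σ * V x) ^ 2 ≤ 2 * cn x y ^ 2 + 2 * (σ ^ 2 * V x ^ 2) := by
        nlinarith [sq_nonneg (cn x y - σ * V x)]
      have h5 : σ ^ 2 * V x ^ 2 ≤ σ ^ 2 * b ^ 2 := mul_le_mul_of_nonneg_left h3 (sq_nonneg _)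
      linarith
    · rw [if_neg hy, if_neg hy, add_zero, add_zero, Complex.norm_real, Real.norm_eq_abs, sq_abs]
      have h3 : 0 ≤ cn x y := by
        unfold cn
        exact Finset.sum_nonneg fun _ _ => by split_ifs <;> norm_num
      linarith
  refine (Finset.sum_le_sum fun y _ => h1 y).trans ?_
  rw [Finset.sum_add_distrib, ← Finset.mul_sum, cn_sum, Finset.sum_ite_eq' Finset.univ x,
    if_pos (Finset.mem_univ _)]
  linarith

/-- the sum of the squares of the energies -/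
theorem eig_sq (hL : 3 ≤ L) {σ b : ℝ} {V : T d L → ℝ} (hV : ∀ x, |V x| ≤ b) {ι : Type} [Fintype ι]
    {u : ι → EuclideanSpace ℂ (T d L)} (hu : Orthonormal ℂ u) {lam : ι → ℝ}
    (h : ∀ j, IsEig σ (lam j) V (u j)) :
    ∑ j, lam j ^ 2 ≤ (4 * d + 2 * σ ^ 2 * b ^ 2) * NN d L := by
  have h1 : ∀ j, lam j ^ 2 = ∑ x, ‖∑ y, row σ V x y * u j y‖ ^ 2 := by
    intro j
    have h2 : ∀ x, ‖∑ y, row σ V x y * u j y‖ ^ 2 = lam j ^ 2 * ‖u j x‖ ^ 2 := by
      intro x
      rw [row_eig (h j) x, norm_mul, mul_pow, Complex.norm_real, Real.norm_eq_abs, sq_abs]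
    rw [Finset.sum_congr rfl fun x _ => h2 x, ← Finset.mul_sum, on_norm hu j, mul_one]
  rw [Finset.sum_congr rfl fun j _ => h1 j, Finset.sum_comm]
  calc ∑ x, ∑ j, ‖∑ y, row σ V x y * u j y‖ ^ 2 ≤ ∑ _x : T d L, (4 * d + 2 * σ ^ 2 * b ^ 2) :=
        Finset.sum_le_sum fun x _ => (bessel hu _).trans (row_bd hL hV x)
    _ = _ := by
        rw [Finset.sum_const, Finset.card_univ, nsmul_eq_mul, card_T, mul_comm]

/-- few large energies -/
theorem few_large (hL : 3 ≤ L) {σ b a : ℝ} (ha : 0 ≤ a) {V : T d L → ℝ} (hV : ∀ x, |V x| ≤ b) {ι : Type}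
    [Fintype ι] {u : ι → EuclideanSpace ℂ (T d L)} (hu : Orthonormal ℂ u) {lam : ι → ℝ}
    (h : ∀ j, IsEig σ (lam j) V (u j)) (hl : ∀ j, a ≤ |lam j|) :
    (Fintype.card ι : ℝ) * a ^ 2 ≤ (4 * d + 2 * σ ^ 2 * b ^ 2) * NN d L := by
  refine le_trans ?_ (eig_sq hL hV hu h)
  calc (Fintype.card ι : ℝ) * a ^ 2 = ∑ _j : ι, a ^ 2 := by
        rw [Finset.sum_const, Finset.card_univ, nsmul_eq_mul]
    _ ≤ _ := Finset.sum_le_sum fun j _ => by
        rw [← sq_abs (lam j)]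
        exact pow_le_pow_left₀ ha (hl j) 2

end rows

section

variable {d L : ℕ} [NeZero L]

/-- the total over the windows, one direction -/
noncomputable def Xs (σ a t : ℝ) (n : ℕ) (q : T d L) (V : T d L → ℝ) : ℝ :=
  ∑ w ∈ Finset.range (⌊a / t⌋₊ + 1), 4 * t ^ 2 * Sw n q fun x y => ‖R σ (Ew a t w) t V x y‖ ^ 2

/-- the deterministic bound -/
theorem Xs_ge {σ a t : ℝ} (ht : 0 < t) (n : ℕ) (q : T d L) (V : T d L → ℝ) {ι : Type} [Fintype ι]
    {u : ι → EuclideanSpace ℂ (T d L)} (hu : Orthonormal ℂ u) {lam : ι → ℝ}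
    (h : ∀ j, IsEig σ (lam j) V (u j)) (hl : ∀ j, |lam j| ≤ a) :
    ∑ j, Sw n q (fun x y => ‖u j x‖ ^ 2 * ‖u j y‖ ^ 2) ≤ Xs σ a t n q V := by
  have h1 : ∀ j : ι, Sw n q (fun x y => ‖u j x‖ ^ 2 * ‖u j y‖ ^ 2) ≤
      ∑ w ∈ Finset.range (⌊a / t⌋₊ + 1), 4 * t ^ 2 * (fw (Ew a t w) t (lam j) ^ 2 *
        Sw n q (fun x y => ‖u j x‖ ^ 2 * ‖u j y‖ ^ 2)) := by
    intro j
    obtain ⟨w, hw, hlw⟩ := Ew_cover ht (hl j)
    have h2 := fw_ge ht hlw
    have hS0 : 0 ≤ Sw n q (fun x y => ‖u j x‖ ^ 2 * ‖u j y‖ ^ 2) :=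
      Sw_nonneg _ _ fun x y => by positivity
    have h3 : 1 ≤ 4 * t ^ 2 * fw (Ew a t w) t (lam j) ^ 2 := by
      have h4 : (1 / (2 * t)) ^ 2 ≤ fw (Ew a t w) t (lam j) ^ 2 :=
        pow_le_pow_left₀ (by positivity) h2 2
      have h5 : 4 * t ^ 2 * (1 / (2 * t)) ^ 2 = 1 := by
        field_simp
        norm_num
      rw [← h5]
      gcongr
    have h4 : Sw n q (fun x y => ‖u j x‖ ^ 2 * ‖u j y‖ ^ 2) ≤
        4 * t ^ 2 * (fw (Ew a t w) t (lam j) ^ 2 *
        Sw n q (fun x y => ‖u j x‖ ^ 2 * ‖u j y‖ ^ 2)) := by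
      rw [← mul_assoc]
      exact le_mul_of_one_le_left hS0 h3
    refine h4.trans ?_
    exact Finset.single_le_sum (f := fun w => 4 * t ^ 2 * (fw (Ew a t w) t (lam j) ^ 2 *
      Sw n q (fun x y => ‖u j x‖ ^ 2 * ‖u j y‖ ^ 2)))
      (fun w _ => by positivity) (Finset.mem_range.2 hw)
  calc ∑ j, Sw n q (fun x y => ‖u j x‖ ^ 2 * ‖u j y‖ ^ 2) ≤
      ∑ j, ∑ w ∈ Finset.range (⌊a / t⌋₊ + 1), 4 * t ^ 2 * (fw (Ew a t w) t (lam j) ^ 2 *
        Sw n q (fun x y => ‖u j x‖ ^ 2 * ‖u j y‖ ^ 2)) := Finset.sum_le_sum fun j _ => h1 j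
    _ = ∑ w ∈ Finset.range (⌊a / t⌋₊ + 1), 4 * t ^ 2 * ∑ j, (fw (Ew a t w) t (lam j) ^ 2 *
        Sw n q (fun x y => ‖u j x‖ ^ 2 * ‖u j y‖ ^ 2)) := by
        rw [Finset.sum_comm]
        exact Finset.sum_congr rfl fun w _ => by rw [Finset.mul_sum]
    _ ≤ Xs σ a t n q V := by
        unfold Xs
        refine Finset.sum_le_sum fun w _ => ?_
        exact mul_le_mul_of_nonneg_left (eig_Sw ht V n _ hu h) (by positivity)

theorem Xs_meas {σ a t : ℝ} (ht : 0 < t) (n : ℕ) (q : T d L) :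
    Measurable fun V : T d L → ℝ => Xs σ a t n q V := by
  unfold Xs
  exact Finset.measurable_sum _ fun w _ => ((Sw_cont ht n _).measurable).const_mul _

theorem Xs_nonneg {σ a t : ℝ} (n : ℕ) (q : T d L) (V : T d L → ℝ) : 0 ≤ Xs σ a t n q V := by
  unfold Xs
  exact Finset.sum_nonneg fun w _ =>
    mul_nonneg (by positivity) (Sw_nonneg _ _ fun x y => by positivity)

variable [Law]

theorem Sw_int {σ E t : ℝ} (ht : 0 < t) (n : ℕ) (q : T d L) :
    Integrable (fun V : T d L → ℝ => Sw n q fun x y => ‖R σ E t V x y‖ ^ 2) (Γ (T d L)) := by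
  refine Integrable.of_bound (C := ∑ _x : T d L, ∑ _y : T d L, 1 * (t⁻¹) ^ 2)
    (Sw_cont ht n q).aestronglyMeasurable (Filter.Eventually.of_forall fun V => ?_)
  rw [Real.norm_of_nonneg (Sw_nonneg _ _ fun x y => by positivity)]
  unfold Sw
  refine Finset.sum_le_sum fun x _ => Finset.sum_le_sum fun y _ => ?_
  refine mul_le_mul ?_ ?_ (by positivity) zero_le_one
  · exact pow_le_one₀ (norm_nonneg _) (ch_le _ _ _)
  · exact pow_le_pow_left₀ (norm_nonneg _) (R_bd ht V x y) 2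

theorem Xs_int {σ a t : ℝ} (ht : 0 < t) (n : ℕ) (q : T d L) :
    Integrable (fun V : T d L → ℝ => Xs σ a t n q V) (Γ (T d L)) := by
  unfold Xs
  exact integrable_finsetSum _ fun w _ => (Sw_int ht n _).const_mul _

/-- the mean of the total -/
theorem Xs_mean {σ a t K0 δ : ℝ} (ha : 0 ≤ a) (ht : 0 < t) {n : ℕ} (hn : 0 < n)
    (q : T d L) (hK0 : 0 ≤ K0) (hδ : 0 ≤ δ)
    (h0 : ∀ E : ℝ, |E| ≤ a + t → t * ‖ff σ E t (0 : T d L)‖ ≤ K0)
    (h1 : ∀ E : ℝ, |E| ≤ a + t → ∀ k < n, ∀ l < n, k ≠ l →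
      t * ‖ff σ E t (k • q - l • q)‖ ≤ δ) :
    ∫ V, Xs σ a t n q V ∂(Γ (T d L)) ≤ 4 * (a + t) * (K0 / n + δ) * NN d L := by
  have hn0 : (0 : ℝ) < n := by exact_mod_cast hn
  have hN := NN_pos (d := d) (L := L)
  have h2 : ∫ V, Xs σ a t n q V ∂(Γ (T d L)) =
      ∑ w ∈ Finset.range (⌊a / t⌋₊ + 1), 4 * t ^ 2 *
        ∫ V, Sw n q (fun x y => ‖R σ (Ew a t w) t V x y‖ ^ 2) ∂(Γ (T d L)) := by
    unfold Xs
    rw [integral_finsetSum _ fun w _ => (Sw_int ht n _).const_mul _]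
    exact Finset.sum_congr rfl fun i _ => integral_const_mul _ _
  rw [h2]
  have h3 : ∀ w ∈ Finset.range (⌊a / t⌋₊ + 1), 4 * t ^ 2 *
        ∫ V, Sw n q (fun x y => ‖R σ (Ew a t w) t V x y‖ ^ 2)
          ∂(Γ (T d L)) ≤ 4 * t * (NN d L * (K0 / n + δ)) := by
    intro w hw
    have hE := Ew_abs ha ht (Finset.mem_range.1 hw)
    have h4 := Run7.h108.GL.Sw_mean (σ := σ) (E := Ew a t w) ht hn q (h0 _ hE) (h1 _ hE) hδ
    calc 4 * t ^ 2 * ∫ V, Sw n q (fun x y => ‖R σ (Ew a t w) t V x y‖ ^ 2) ∂(Γ (T d L)) =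
        4 * t * (t * ∫ V, Sw n q (fun x y => ‖R σ (Ew a t w) t V x y‖ ^ 2) ∂(Γ (T d L))) := by
          ring
      _ ≤ _ := by gcongr
  refine (Finset.sum_le_sum h3).trans ?_
  rw [Finset.sum_const, nsmul_eq_mul, Finset.card_range]
  have h4 : ((⌊a / t⌋₊ + 1 : ℕ) : ℝ) * t ≤ a + t := by
    push_cast
    have h5 := Nat.floor_le (by positivity : 0 ≤ a / t)
    rw [le_div_iff₀ ht] at h5
    linarith
  calc ((⌊a / t⌋₊ + 1 : ℕ) : ℝ) * (4 * t * (NN d L * (K0 / n + δ))) =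
      (((⌊a / t⌋₊ + 1 : ℕ) : ℝ) * t) * (4 * (NN d L * (K0 / n + δ))) := by ring
    _ ≤ (a + t) * (4 * (NN d L * (K0 / n + δ))) := by gcongr
    _ = _ := by ring

end

end Run7.h376.HD
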