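import Pool.Agent.Run7.h442.HD.Iface
import Pool.Agent.Run7.h376.HD.Row

/-!
# Project HD, piece LOC
-/

set_option autoImplicit false
set_option linter.unusedSectionVars false

open scoped BigOperators Matrix Topology
open MeasureTheory ProbabilityTheory

namespace Run7.h376.HD

open Pool.Agent.Run7.h47 hiding Hyp good mm mf ze V1 V2 ff Sw_mean Sw_int Hp_mean
open Pool.Agent.W788.MFP.Four Pool.Agent.W788.BK
open Run7.h108.GL (Law Γ ff V2)
open Run7.h442.HD

theorem Ga_pos (d : ℕ) (E : ℝ) : 0 < Ga d E := by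
  unfold Ga
  have := Real.pi_pos
  positivity

theorem Ga_le (d : ℕ) (E : ℝ) : Ga d E ≤ 1 := by
  unfold Ga
  have h1 : Real.sqrt Real.pi ≤ 2 := by
    rw [Real.sqrt_le_left (by norm_num)]
    linarith [Real.pi_le_four]
  have h2 : Real.exp (-(E ^ 2 / (4 * d))) ≤ 1 := by
    rw [Real.exp_le_one_iff, neg_nonpos]
    positivity
  calc Real.sqrt Real.pi / 2 * Real.exp (-(E ^ 2 / (4 * d))) ≤ 2 / 2 * 1 := by gcongr
    _ = 1 := by norm_num

theorem Pr_nonneg {G q : ℝ} (hG : 0 < G) (hq : 0 ≤ q) : 0 ≤ Pr G q := by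
  unfold Pr
  positivity

theorem Pr_le {G q : ℝ} (hG : 0 < G) (hq : 0 ≤ q) : Pr G q ≤ G := by
  unfold Pr
  have h : 0 ≤ q / (2 * G) := by positivity
  rw [div_le_iff₀ (by linarith)]
  nlinarith

theorem Pr_le' {G q Q : ℝ} (hG : 0 < G) (hG1 : G ≤ 1) (hQ : 0 < Q) (hq : Q ≤ q) : Pr G q ≤ 2 / Q := by
  unfold Pr
  have hq0 : 0 < q := by linarith
  have h : 0 < q / (2 * G) := by positivity
  calc G / (1 + q / (2 * G)) ≤ G / (q / (2 * G)) := by
        apply div_le_div_of_nonneg_left hG.le h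
        linarith
    _ = 2 * G ^ 2 / q := by
        field_simp
    _ ≤ 2 * 1 / Q := by
        apply div_le_div₀ (by norm_num) _ hQ hq
        have : G ^ 2 ≤ 1 := pow_le_one₀ hG.le hG1
        linarith
    _ = 2 / Q := by ring

theorem small_rpow (c w : ℝ) (hc : 0 < c) (hw : 0 < w) : ∃ d1 : ℕ, ∀ d : ℕ, d1 ≤ d → (d : ℝ) ^ (-c) ≤ w := by
  have h1 := (tendsto_rpow_neg_atTop hc).comp (tendsto_natCast_atTop_atTop (R := ℝ))
  have h2 := h1.eventually (Iic_mem_nhds hw)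
  obtain ⟨d1, hd1⟩ := Filter.eventually_atTop.1 h2
  exact ⟨d1, fun d hd => hd1 d hd⟩

open Classical in
theorem t_LOC (hT : S_TOR) : S_LOC := by
  intro K ε hK hε
  -- the constants
  obtain ⟨A, hA⟩ : ∃ A : ℝ, A = Real.sqrt (2 * (4 + 2 * K ^ 4) / ε) := ⟨_, rfl⟩
  have hA0 : 0 < A := by rw [hA]; positivity
  have hA2 : A ^ 2 = 2 * (4 + 2 * K ^ 4) / ε := by rw [hA, Real.sq_sqrt (by positivity)]
  obtain ⟨η, hη⟩ : ∃ η : ℝ, η = ε ^ 4 / (64 * (A + 1)) := ⟨_, rfl⟩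
  have hη0 : 0 < η := by rw [hη]; positivity
  obtain ⟨n, hn⟩ := exists_nat_gt (4 / η)
  have hn0R : (0 : ℝ) < n := lt_trans (by positivity) hn
  have hn0 : 0 < n := by exact_mod_cast hn0R
  have hnη : 2 / (n : ℝ) ≤ η / 2 := by
    rw [div_lt_iff₀ hη0] at hn
    rw [div_le_iff₀ hn0R]
    linarith
  obtain ⟨Q, hQ⟩ : ∃ Q : ℝ, Q = 8 / η := ⟨_, rfl⟩
  have hQ0 : 0 < Q := by rw [hQ]; positivity
  have hQη : 2 / Q = η / 4 := by rw [hQ]; field_simp; norm_num
  obtain ⟨M, hM⟩ : ∃ M : ℝ, M = K * Real.sqrt Q := ⟨_, rfl⟩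
  have hM0 : 0 < M := by
    rw [hM]
    have := Real.sqrt_pos.2 hQ0
    have : 0 < K := by linarith
    positivity
  have hM2 : M ^ 2 = K ^ 2 * Q := by rw [hM, mul_pow, Real.sq_sqrt hQ0.le]
  obtain ⟨e1, he1⟩ : ∃ e1 : ℝ, e1 = min 1 (η / 4) := ⟨_, rfl⟩
  have he10 : 0 < e1 := by rw [he1]; positivity
  have he11 : e1 ≤ 1 := by rw [he1]; exact min_le_left _ _
  have he12 : e1 ≤ η / 4 := by rw [he1]; exact min_le_right _ _
  obtain ⟨w, hw0, hw1, d0, H⟩ := hT K (A + 1) (n * (M + 1)) e1 hK (by positivity) he10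
  obtain ⟨d1, hd1⟩ := small_rpow (1 / 200) w (by norm_num) hw0
  obtain ⟨d2, hd2⟩ := small_rpow (1 / 2000) (1 / (4 * n * (M + 1))) (by norm_num) (by positivity)
  refine ⟨max (max d0 d1) (max d2 3), ?_⟩
  intro _ d L _ hd hL hb σ hσ1 hσ2 i
  have hda : d0 ≤ d := (le_max_left _ _).trans ((le_max_left _ _).trans hd)
  have hdb : d1 ≤ d := (le_max_right _ _).trans ((le_max_left _ _).trans hd)
  have hdc : d2 ≤ d := (le_max_left _ _).trans ((le_max_right _ _).trans hd)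
  have hdd : 3 ≤ d := (le_max_right _ _).trans ((le_max_right _ _).trans hd)
  have hdR : (3 : ℝ) ≤ d := by exact_mod_cast hdd
  have hd0 : (0 : ℝ) < d := by linarith
  have hd1' : (1 : ℝ) ≤ d := by linarith
  have hLR3 : (3 : ℝ) ≤ L := by
    refine le_trans ?_ hL
    calc (3 : ℝ) ≤ d := hdR
      _ = (d : ℝ) ^ 1 := (pow_one _).symm
      _ ≤ (d : ℝ) ^ 8 := pow_le_pow_right₀ hd1' (by norm_num)
  have hL3 : 3 ≤ L := by exact_mod_cast hLR3
  have hLR : (0 : ℝ) < L := by linarith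
  have hN := NN_pos (d := d) (L := L)
  have hσ0 : 0 < |σ| := lt_of_lt_of_le (by positivity) hσ1
  have hσsq : 0 < σ ^ 2 := by rw [← sq_abs]; positivity
  have hσK : σ ^ 2 ≤ K ^ 2 := by
    rw [← sq_abs]
    exact pow_le_pow_left₀ hσ0.le hσ2 2
  -- the scales
  obtain ⟨t, ht⟩ : ∃ t : ℝ, t = (d : ℝ) ^ (-(1 / 2 + 1 / 200 : ℝ)) := ⟨_, rfl⟩
  have ht0 : 0 < t := by rw [ht]; exact Real.rpow_pos_of_pos hd0 _
  have hsd : Real.sqrt d = (d : ℝ) ^ (1 / 2 : ℝ) := Real.sqrt_eq_rpow _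
  have hsd0 : 0 < Real.sqrt d := Real.sqrt_pos.2 hd0
  have hsd1 : 1 ≤ Real.sqrt d := Real.one_le_sqrt.2 hd1'
  have htw : t * Real.sqrt d ≤ w := by
    rw [ht, hsd, ← Real.rpow_add hd0]
    have e : (-(1 / 2 + 1 / 200 : ℝ) + 1 / 2) = -(1 / 200) := by norm_num
    rw [e]
    exact hd1 d hdb
  have ht1 : t ≤ 1 := by
    have h1 : t ≤ t * Real.sqrt d := le_mul_of_one_le_right ht0.le hsd1
    linarith
  obtain ⟨τ, hτ⟩ : ∃ τ : ℝ, τ = Real.sqrt (t / Real.sqrt d) := ⟨_, rfl⟩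
  have hτ0 : 0 < τ := by rw [hτ]; exact Real.sqrt_pos.2 (by positivity)
  have hτ2 : τ ^ 2 = t / Real.sqrt d := by rw [hτ, Real.sq_sqrt (by positivity)]
  have hτr : τ = (d : ℝ) ^ (-(1 / 2 + 1 / 400 : ℝ)) := by
    rw [hτ, ht, hsd, ← Real.rpow_sub hd0, Real.sqrt_eq_rpow, ← Real.rpow_mul hd0.le]
    congr 1
    norm_num
  have hpi := Real.pi_pos
  have hpi4 := Real.pi_le_four
  have hLτ : 2 * Real.pi / L ≤ τ := by
    have h1 : (d : ℝ)⁻¹ ≤ τ := by
      rw [hτr, ← Real.rpow_neg_one]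
      exact Real.rpow_le_rpow_of_exponent_le hd1' (by norm_num)
    refine le_trans ?_ h1
    rw [div_le_iff₀ hLR, inv_mul_eq_div, le_div_iff₀ hd0]
    have h2 : (9 : ℝ) * d ≤ (d : ℝ) ^ 8 := by
      have h3 : (9 : ℝ) ≤ (d : ℝ) ^ 7 := by
        calc (9 : ℝ) ≤ 3 ^ 7 := by norm_num
          _ ≤ (d : ℝ) ^ 7 := pow_le_pow_left₀ (by norm_num) hdR 7
      calc (9 : ℝ) * d ≤ (d : ℝ) ^ 7 * d := by gcongr
        _ = (d : ℝ) ^ 8 := by ring
    have h4 : 2 * Real.pi * d ≤ 8 * d := by gcongr; linarith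
    linarith
  -- the momentum
  obtain ⟨J, hJd⟩ : ∃ J : ℤ, J = ⌈M * τ * L / (2 * Real.pi)⌉ := ⟨_, rfl⟩
  obtain ⟨θ, hθ⟩ : ∃ θ, θ = 2 * Real.pi * J / L := ⟨_, rfl⟩
  have hθ1 : M * τ ≤ θ := by
    have h1 : M * τ * L / (2 * Real.pi) ≤ J := by
      rw [hJd]
      exact Int.le_ceil _
    rw [hθ, le_div_iff₀ hLR]
    rw [div_le_iff₀ (by positivity)] at h1
    linarith
  have hθ2 : θ ≤ (M + 1) * τ := by
    have h1 : (J : ℝ) < M * τ * L / (2 * Real.pi) + 1 := by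
      rw [hJd]
      exact Int.ceil_lt_add_one _
    have h2 : θ ≤ M * τ + 2 * Real.pi / L := by
      rw [hθ, div_le_iff₀ hLR]
      have h3 : (M * τ + 2 * Real.pi / L) * L = M * τ * L + 2 * Real.pi := by
        field_simp
      rw [h3]
      have h4 : 2 * Real.pi * (M * τ * L / (2 * Real.pi) + 1) = M * τ * L + 2 * Real.pi := by
        field_simp
      rw [← h4]
      exact mul_le_mul_of_nonneg_left h1.le (by positivity)
    linarith
  have hθ0 : 0 < θ := lt_of_lt_of_le (by positivity) hθ1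
  -- the energies
  obtain ⟨a, had⟩ : ∃ a : ℝ, a = A * Real.sqrt d := ⟨_, rfl⟩
  have ha0 : 0 < a := by rw [had]; positivity
  have hEle : ∀ E : ℝ, |E| ≤ a + t → |E| ≤ (A + 1) * Real.sqrt d := by
    intro E hE
    rw [had] at hE
    linarith
  -- the bounds of the ladder
  have hnorm : ∀ (E : ℝ) (f : ℂ) (D : ℝ), ‖(Real.sqrt d * t : ℝ) * f - ((D : ℝ) : ℂ)‖ ≤ e1 → 0 ≤ D →
      Real.sqrt d * (t * ‖f‖) ≤ D + e1 := by
    intro E f D h1 hD
    have h4 := norm_sub_norm_le (((Real.sqrt d * t : ℝ) : ℂ) * f) ((D : ℝ) : ℂ)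
    rw [norm_mul, Complex.norm_real, Complex.norm_real, Real.norm_of_nonneg (by positivity),
      Real.norm_of_nonneg hD] at h4
    linarith
  have hang0 : ∀ E : ℝ, |E| ≤ a + t → t * ‖ff σ E t (0 : T d L)‖ ≤ 2 / Real.sqrt d := by
    intro E hE
    have h1 := (H d L hda hL hb σ E t hσ1 hσ2 (hEle E hE) (by rw [ht]) htw).2 (fun _ => 0) (by
      unfold sz ang
      simp only [Int.cast_zero, mul_zero, zero_div, abs_zero, Finset.sum_const_zero]
      positivity)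
    have h2 : mom d L (fun _ => 0) = 0 := by
      funext i'
      simp [mom]
    have h3 : (∑ i', ang L (fun _ : Fin d => (0 : ℤ)) i' ^ 2) * Real.sqrt d / (σ ^ 2 * t) = 0 := by
      unfold ang
      simp
    rw [h2, h3] at h1
    have h4 := hnorm E _ _ h1 (Pr_nonneg (Ga_pos d E) le_rfl)
    have h5 := (Pr_le (Ga_pos d E) (le_refl (0 : ℝ))).trans (Ga_le d E)
    rw [le_div_iff₀ hsd0]
    linarith
  have hangk : ∀ E : ℝ, |E| ≤ a + t → ∀ k < n, ∀ l < n, k ≠ l →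
      t * ‖ff σ E t (k • mom d L (Pi.single i J) - l • mom d L (Pi.single i J))‖ ≤
        (η / 2) / Real.sqrt d := by
    intro E hE k hk l hl hkl
    rw [mom_smul]
    obtain ⟨j, hj⟩ : ∃ j : Fin d → ℤ, j = fun i' => ((k : ℤ) - l) * (Pi.single i J : Fin d → ℤ) i' :=
      ⟨_, rfl⟩
    rw [← hj]
    have hkl1 : (1 : ℝ) ≤ |(((k : ℤ) - l : ℤ) : ℝ)| := by
      have h1 : (1 : ℤ) ≤ |(k : ℤ) - l| := Int.one_le_abs (by
        intro h0
        apply hkl
        omega)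
      have h2 : ((1 : ℤ) : ℝ) ≤ ((|(k : ℤ) - l| : ℤ) : ℝ) := by exact_mod_cast h1
      rwa [Int.cast_abs, Int.cast_one] at h2
    have hkln : |(((k : ℤ) - l : ℤ) : ℝ)| ≤ n := by
      have h1 : |(k : ℤ) - l| ≤ n := by
        rw [abs_le]
        constructor <;> omega
      have h2 : ((|(k : ℤ) - l| : ℤ) : ℝ) ≤ ((n : ℤ) : ℝ) := by exact_mod_cast h1
      rwa [Int.cast_abs, Int.cast_natCast] at h2
    have hai : ang L j i = (((k : ℤ) - l : ℤ) : ℝ) * θ := by
      unfold ang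
      rw [hj, hθ]
      simp only [Pi.single_eq_same]
      push_cast
      ring
    have haj : ∀ i', i' ≠ i → ang L j i' = 0 := by
      intro i' hi'
      unfold ang
      rw [hj]
      simp only [Pi.single_eq_of_ne hi', mul_zero, Int.cast_zero, zero_div]
    have hsz : sz L j ≤ n * (M + 1) * Real.sqrt (t / Real.sqrt d) := by
      unfold sz
      rw [← hτ, Finset.sum_eq_single i]
      · rw [hai, abs_mul, abs_of_pos hθ0]
        calc |(((k : ℤ) - l : ℤ) : ℝ)| * θ ≤ n * ((M + 1) * τ) := by gcongr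
          _ = _ := by ring
      · intro i' _ hi'
        rw [haj i' hi', abs_zero]
      · intro h
        exact absurd (Finset.mem_univ i) h
    have h1 := (H d L hda hL hb σ E t hσ1 hσ2 (hEle E hE) (by rw [ht]) htw).2 j hsz
    have h2 : ∑ i', ang L j i' ^ 2 = (((k : ℤ) - l : ℤ) : ℝ) ^ 2 * θ ^ 2 := by
      rw [Finset.sum_eq_single i]
      · rw [hai]
        ring
      · intro i' _ hi'
        rw [haj i' hi']
        norm_num
      · intro h
        exact absurd (Finset.mem_univ i) h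
    have h3 : Q ≤ (∑ i', ang L j i' ^ 2) * Real.sqrt d / (σ ^ 2 * t) := by
      rw [h2, le_div_iff₀ (by positivity)]
      have h4 : 1 ≤ (((k : ℤ) - l : ℤ) : ℝ) ^ 2 := by
        rw [← sq_abs]
        exact one_le_pow₀ hkl1
      have h5 : K ^ 2 * Q * (t / Real.sqrt d) ≤ θ ^ 2 := by
        calc K ^ 2 * Q * (t / Real.sqrt d) = (M * τ) ^ 2 := by rw [mul_pow, hM2, hτ2]
          _ ≤ θ ^ 2 := by gcongr
      have h6 : θ ^ 2 ≤ (((k : ℤ) - l : ℤ) : ℝ) ^ 2 * θ ^ 2 := le_mul_of_one_le_left (sq_nonneg θ) h4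
      calc Q * (σ ^ 2 * t) ≤ Q * (K ^ 2 * t) := by gcongr
        _ = K ^ 2 * Q * (t / Real.sqrt d) * Real.sqrt d := by
            field_simp
        _ ≤ (((k : ℤ) - l : ℤ) : ℝ) ^ 2 * θ ^ 2 * Real.sqrt d := by
            exact mul_le_mul_of_nonneg_right (h5.trans h6) hsd0.le
    have hq0 : 0 ≤ (∑ i', ang L j i' ^ 2) * Real.sqrt d / (σ ^ 2 * t) := hQ0.le.trans h3
    have h4 := hnorm E _ _ h1 (Pr_nonneg (Ga_pos d E) hq0)
    have h5 := Pr_le' (Ga_pos d E) (Ga_le d E) hQ0 h3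
    rw [le_div_iff₀ hsd0]
    linarith
  -- the mean of the total
  obtain ⟨q, hq⟩ : ∃ q : T d L, q = mom d L (Pi.single i J) := ⟨_, rfl⟩
  rw [← hq] at hangk
  have hmean := Xs_mean (d := d) (L := L) (σ := σ) ha0.le ht0 hn0 q (by positivity)
    (by positivity) hang0 hangk
  have hmean2 : ∫ V, Xs σ a t n q V ∂(Γ (T d L)) ≤ ε ^ 4 / 16 * NN d L := by
    refine hmean.trans ?_
    apply mul_le_mul_of_nonneg_right _ hN.le
    have h1 : a + t ≤ (A + 1) * Real.sqrt d := by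
      rw [had]
      linarith
    have h2 : 2 / Real.sqrt d / n + η / 2 / Real.sqrt d = (2 / n + η / 2) / Real.sqrt d := by
      field_simp
    rw [h2]
    calc 4 * (a + t) * ((2 / n + η / 2) / Real.sqrt d) ≤
        4 * ((A + 1) * Real.sqrt d) * ((η / 2 + η / 2) / Real.sqrt d) := by gcongr
      _ = 4 * (A + 1) * η := by
          field_simp
          ring
      _ = ε ^ 4 / 16 := by
          rw [hη]
          field_simp
          norm_num
  obtain ⟨θ0, hθ0d⟩ : ∃ θ0, θ0 = ε ^ 3 / 8 * NN d L := ⟨_, rfl⟩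
  have hθ00 : 0 < θ0 := by rw [hθ0d]; positivity
  -- the good set
  obtain ⟨S1, hS1⟩ : ∃ S1 : Set (T d L → ℝ), S1 = {V | Xs σ a t n q V < θ0} := ⟨_, rfl⟩
  obtain ⟨S2, hS2⟩ : ∃ S2 : Set (T d L → ℝ), S2 = {V | ∀ x, |V x| ≤ Law.b} := ⟨_, rfl⟩
  have hm1 : MeasurableSet S1 := by
    rw [hS1]
    exact measurableSet_lt (Xs_meas ht0 n q) measurable_const
  have hm2 : MeasurableSet S2 := by
    rw [hS2]
    have e : {V : T d L → ℝ | ∀ x, |V x| ≤ Law.b} = ⋂ x, {V | |V x| ≤ Law.b} := by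
      ext V
      simp
    rw [e]
    exact MeasurableSet.iInter fun x =>
      measurableSet_le ((measurable_pi_apply x).abs) measurable_const
  have hp1 : 1 - ε / 2 ≤ (Γ (T d L)).real S1 := by
    have h1 := mul_meas_ge_le_integral_of_nonneg (μ := Γ (T d L))
      (f := fun V => Xs σ a t n q V) (Filter.Eventually.of_forall fun V => Xs_nonneg n q V)
      (Xs_int ht0 n q) θ0
    have h2 : (Γ (T d L)).real S1 = 1 - (Γ (T d L)).real {V | θ0 ≤ Xs σ a t n q V} := by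
      have h3 := probReal_add_probReal_compl (μ := Γ (T d L))
        (measurableSet_le (measurable_const (a := θ0)) (Xs_meas (d := d) (L := L) (σ := σ) (a := a)
          ht0 n q))
      have h4 : {V : T d L → ℝ | θ0 ≤ Xs σ a t n q V}ᶜ = S1 := by
        rw [hS1]
        ext V
        simp
      rw [h4] at h3
      linarith
    have h3 : (Γ (T d L)).real {V | θ0 ≤ Xs σ a t n q V} ≤ ε / 2 := by
      have h4 : θ0 * (Γ (T d L)).real {V | θ0 ≤ Xs σ a t n q V} ≤ ε ^ 4 / 16 * NN d L :=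
        h1.trans hmean2
      have h5 : ε ^ 4 / 16 * NN d L = θ0 * (ε / 2) := by
        rw [hθ0d]
        ring
      rw [h5] at h4
      exact le_of_mul_le_mul_left h4 hθ00
    rw [h2]
    linarith
  have hp2 : (Γ (T d L)) S2ᶜ = 0 := by
    have h1 := Run7.h108.GL.ae_bd (κ := T d L) (μ := Law.μ) Law.bd
    rw [hS2]
    exact h1
  refine ⟨S1 ∩ S2, hm1.inter hm2, ?_, ?_⟩
  · have h1 : S1 ⊆ (S1 ∩ S2) ∪ S2ᶜ := by
      intro V hV
      by_cases h : V ∈ S2
      · exact Or.inl ⟨hV, h⟩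
      · exact Or.inr h
    have h2 : (Γ (T d L)).real S1 ≤ (Γ (T d L)).real (S1 ∩ S2) + (Γ (T d L)).real S2ᶜ :=
      (measureReal_mono h1).trans (measureReal_union_le _ _)
    have h3 : (Γ (T d L)).real S2ᶜ = 0 := by
      rw [measureReal_def, hp2, ENNReal.toReal_zero]
    linarith
  · intro V hV ι _ u lam hu heig hmass
    have hV1 : Xs σ a t n q V < θ0 := by
      have := hV.1
      rw [hS1] at this
      exact this
    have hV2 : ∀ x, |V x| ≤ Law.b := by
      have := hV.2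
      rw [hS2] at this
      exact this
    obtain ⟨p, hp⟩ : ∃ p : ι → Prop, ∀ j, p j ↔ |lam j| ≤ a := ⟨fun j => |lam j| ≤ a, fun _ => Iff.rfl⟩
    -- the bulk
    have hbulk : (Fintype.card {j // p j} : ℝ) ≤ ε / 2 * NN d L := by
      have h1 := Xs_ge (σ := σ) (a := a) ht0 n q V (ι := {j // p j}) (u := fun j => u j.1)
        (hu.comp _ Subtype.val_injective) (lam := fun j => lam j.1) (fun j => heig j.1)
        (fun j => (hp j.1).1 j.2)
      have hr0 : (0 : ℝ) ≤ (d : ℝ) ^ (1 / 2 + 1 / 500 : ℝ) := by positivity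
      have hJs : n * |2 * Real.pi * J / L| * (2 * (d : ℝ) ^ (1 / 2 + 1 / 500 : ℝ)) ≤ 1 / 2 := by
        rw [← hθ, abs_of_pos hθ0]
        have h2 := hd2 d hdc
        rw [le_div_iff₀ (by positivity)] at h2
        calc n * θ * (2 * (d : ℝ) ^ (1 / 2 + 1 / 500 : ℝ)) ≤
            n * ((M + 1) * τ) * (2 * (d : ℝ) ^ (1 / 2 + 1 / 500 : ℝ)) := by gcongr
          _ = ((d : ℝ) ^ (-(1 / 2 + 1 / 400 : ℝ)) * (d : ℝ) ^ (1 / 2 + 1 / 500 : ℝ)) *
              (2 * n * (M + 1)) := by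
              rw [hτr]
              ring
          _ = (d : ℝ) ^ (-(1 / 2000 : ℝ)) * (2 * n * (M + 1)) := by
              rw [← Real.rpow_add hd0]
              congr 2
              norm_num
          _ ≤ 1 / 2 := by linarith
      have h2 : ∀ j : {j // p j}, ε ^ 2 / 4 ≤ Sw n q (fun x y => ‖u j.1 x‖ ^ 2 * ‖u j.1 y‖ ^ 2) := by
        intro j
        obtain ⟨c, hic⟩ := hmass j.1
        have h3 := Sw_slab hn0 i c J hJs hr0 (fun x => ‖u j.1 x‖ ^ 2) fun x => by positivity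
        rw [← hq] at h3
        refine le_trans ?_ h3
        have h4 := pow_le_pow_left₀ hε.le hic 2
        linarith
      have h3 : (Fintype.card {j // p j} : ℝ) * (ε ^ 2 / 4) ≤ Xs σ a t n q V := by
        refine le_trans ?_ h1
        calc (Fintype.card {j // p j} : ℝ) * (ε ^ 2 / 4) = ∑ _j : {j // p j}, ε ^ 2 / 4 := by
              rw [Finset.sum_const, Finset.card_univ, nsmul_eq_mul]
          _ ≤ _ := Finset.sum_le_sum fun j _ => h2 j
      have h4 : (Fintype.card {j // p j} : ℝ) * (ε ^ 2 / 4) ≤ ε ^ 3 / 8 * NN d L := by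
        rw [← hθ0d]
        linarith
      have h5 : ε ^ 3 / 8 * NN d L = (ε / 2 * NN d L) * (ε ^ 2 / 4) := by ring
      rw [h5] at h4
      exact le_of_mul_le_mul_right h4 (by positivity)
    -- the large energies
    have hbad : (Fintype.card {j // ¬ p j} : ℝ) ≤ ε / 2 * NN d L := by
      have h1 := few_large hL3 ha0.le hV2 (ι := {j // ¬ p j}) (u := fun j => u j.1)
        (hu.comp _ Subtype.val_injective) (lam := fun j => lam j.1) (fun j => heig j.1)
        (fun j => by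
          have h2 : ¬ |lam j.1| ≤ a := fun h3 => j.2 ((hp j.1).2 h3)
          exact (not_le.1 h2).le)
      have h2 : a ^ 2 = 2 * (4 + 2 * K ^ 4) / ε * d := by
        rw [had, mul_pow, hA2, Real.sq_sqrt hd0.le]
      have h3 : (4 * (d : ℝ) + 2 * σ ^ 2 * Law.b ^ 2) ≤ (4 + 2 * K ^ 4) * d := by
        have h4 : Law.b ^ 2 ≤ K ^ 2 := pow_le_pow_left₀ Law.hb.le hb 2
        have h5 : σ ^ 2 * Law.b ^ 2 ≤ K ^ 2 * K ^ 2 := by gcongr
        have h6 : K ^ 2 * K ^ 2 ≤ K ^ 4 * d := by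
          have h7 : K ^ 2 * K ^ 2 = K ^ 4 := by ring
          rw [h7]
          exact le_mul_of_one_le_right (by positivity) hd1'
        linarith
      have h4 : (Fintype.card {j // ¬ p j} : ℝ) * a ^ 2 ≤ (ε / 2 * NN d L) * a ^ 2 := by
        refine h1.trans ((mul_le_mul_of_nonneg_right h3 hN.le).trans (le_of_eq ?_))
        rw [h2]
        field_simp
      exact le_of_mul_le_mul_right h4 (by positivity)
    have hcard : Fintype.card ι = Fintype.card {j // p j} + Fintype.card {j // ¬ p j} := by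
      rw [← Fintype.card_sum]
      exact (Fintype.card_congr (Equiv.sumCompl p)).symm
    rw [hcard]
    push_cast
    have hNN : (L : ℝ) ^ d = NN d L := rfl
    rw [hNN]
    linarith

end Run7.h376.HD
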